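import Pool.Agent.Y798.OG.Stm
import Pool.Agent.H70FC.Words

set_option autoImplicit false

/-! OG-ALG: class functions on `O(2m+2)` supported on one component are integer combinations of words. -/

namespace Pool.Agent.Y960.OG.Alg

open Finset UnitAddTorus Polynomial Pool.Agent.Y798.FC Pool.Agent.Y139.ID Pool.Agent.Y798.OG
open Pool.Agent.H70FC.Words

/-- the two components -/
abbrev TT (m : ℕ) : Type := UnitAddTorus (Fin (m + 1)) ⊕ UnitAddTorus (Fin m)

/-- the eigenvalue angles of a point of one of the two components -/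
noncomputable def pt {m : ℕ} (s : TT m) : UnitAddTorus (Fin ((m + 1) + (m + 1))) := Sum.elim pos neg s

/-- the pullbacks of the integer combinations of words -/
def RR (m : ℕ) : Subalgebra ℤ (TT m → ℂ) where
  carrier := {F | ∃ G ∈ Submodule.span ℤ (wordFun ((m + 1) + (m + 1))), ∀ s, F s = G (pt s)}
  mul_mem' := by
    rintro F F' ⟨G, hG, h⟩ ⟨G', hG', h'⟩
    refine ⟨G * G', ?_, fun x => by rw [Pi.mul_apply, Pi.mul_apply, h, h']⟩
    have h1 : G * G' ∈ Submodule.span ℤ (wordFun ((m + 1) + (m + 1))) *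
        Submodule.span ℤ (wordFun ((m + 1) + (m + 1))) :=
      Submodule.mul_mem_mul hG hG'
    rw [Submodule.span_mul_span] at h1
    refine Submodule.span_mono ?_ h1
    rintro f hf
    obtain ⟨a, ha, b, hb, rfl⟩ := Set.mem_mul.1 hf
    exact word_mul ha hb
  add_mem' := by
    rintro F F' ⟨G, hG, h⟩ ⟨G', hG', h'⟩
    exact ⟨G + G', add_mem hG hG', fun x => by rw [Pi.add_apply, Pi.add_apply, h, h']⟩
  algebraMap_mem' := fun n => by
    refine ⟨n • (1 : UnitAddTorus (Fin ((m + 1) + (m + 1))) → ℂ),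
      Submodule.smul_mem _ _ (Submodule.subset_span word_one), fun x => ?_⟩
    simp

theorem mem_RR {m : ℕ} {F : TT m → ℂ} : F ∈ RR m ↔
    ∃ G ∈ Submodule.span ℤ (wordFun ((m + 1) + (m + 1))), ∀ s, F s = G (pt s) := Iff.rfl

theorem es_mem {m k : ℕ} (hk : k ≤ (m + 1) + (m + 1)) : (fun s : TT m => es k (pt s)) ∈ RR m :=
  ⟨es k, Submodule.subset_span (word_es k hk), fun _ => rfl⟩

theorem aeval_mem {g : ℕ} {T : Type} (A : Subalgebra ℤ (T → ℂ)) (F : Fin g → T → ℂ)
    (hF : ∀ i, F i ∈ A) (p : MvPolynomial (Fin g) ℤ) :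
    (fun t => MvPolynomial.aeval (fun i => F i t) p) ∈ A := by
  have h1 : MvPolynomial.aeval F p ∈ A := by
    have h1 : MvPolynomial.aeval F p ∈ Algebra.adjoin ℤ (Set.range F) := by
      rw [Algebra.adjoin_range_eq_range_aeval]
      exact ⟨p, rfl⟩
    refine Algebra.adjoin_le ?_ h1
    rintro f ⟨i, rfl⟩
    exact hF i
  have h2 : (fun t => MvPolynomial.aeval (fun i => F i t) p) = MvPolynomial.aeval F p := by
    ext t
    have := MvPolynomial.comp_aeval_apply (R := ℤ)
      (φ := Pi.evalAlgHom ℤ (fun _ : T => ℂ) t) F p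
    simpa using this.symm
  rw [h2]
  exact h1

theorem sym_gen {g : ℕ} {T : Type} (A : Subalgebra ℤ (T → ℂ)) (ι : UnitAddTorus (Fin g) → T)
    (h : ∀ k ≤ g, ∃ F ∈ A, ∀ x, F (ι x) = E k x) (Q : MvPolynomial (Fin g) ℤ)
    (hQ : Q.IsSymmetric) : ∃ F ∈ A, ∀ x, F (ι x) = MvPolynomial.aeval (yy x) Q := by
  have h' : ∀ i : Fin g, ∃ F ∈ A, ∀ x, F (ι x) = E (i + 1) x := fun i => h _ (by omega)
  choose F hFA hF using h'
  obtain ⟨p, hp⟩ := MvPolynomial.esymmAlgHom_fin_surjective ℤ (le_refl g) ⟨Q, hQ⟩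
  have hp' : MvPolynomial.aeval (fun i : Fin g => MvPolynomial.esymm (Fin g) ℤ (i + 1)) p = Q := by
    rw [← MvPolynomial.esymmAlgHom_apply, hp]
  refine ⟨_, aeval_mem A F hFA p, fun x => ?_⟩
  have h6 : MvPolynomial.aeval (yy x) Q = MvPolynomial.aeval (fun i : Fin g =>
      MvPolynomial.aeval (yy x) (MvPolynomial.esymm (Fin g) ℤ (i + 1))) p := by
    rw [← hp']
    exact MvPolynomial.comp_aeval_apply (R := ℤ) (φ := MvPolynomial.aeval (yy x)) _ p
  rw [h6]
  simp only [hF]
  congr 1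
  ext i
  simp [MvPolynomial.esymm, E, map_sum, map_prod]

/-- the integer coefficients -/
theorem cc_eq (g k j : ℕ) (h : j ≤ k) : cc g k j =
    if 2 ∣ (k - j) then ((g - j).choose ((k - j) / 2) : ℤ) else 0 := by
  unfold cc
  rw [if_pos h]
  have h1 : (1 + X ^ 2 : ℤ[X]) = expand ℤ 2 (1 + X) := by simp
  rw [h1, ← map_pow, coeff_expand (by norm_num)]
  split_ifs with h2
  · rw [coeff_one_add_X_pow]
  · rfl

theorem es_pos {m : ℕ} (x : UnitAddTorus (Fin (m + 1))) (k : ℕ) :
    es k (pos x) = ∑ j ∈ range (m + 1 + 1), (cc (m + 1) k j : ℂ) * E j x := by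
  rw [← coeff_blocks, ← dbl_prod, coeff_prod]
  rfl

theorem ev_half {N : ℕ} (x : UnitAddTorus (Fin N)) (i : Fin N)
    (h : x i = (((1 / 2 : ℝ) : UnitAddCircle))) : ev x i = -1 := by
  unfold ev
  rw [h, fourier_coe_apply]
  have : (2 * (Real.pi : ℂ) * Complex.I * (1 : ℤ) * ((1 / 2 : ℝ) : ℂ) / (1 : ℝ)) =
      Real.pi * Complex.I := by
    push_cast
    ring
  rw [this, Complex.exp_pi_mul_I]

theorem ev_zero {N : ℕ} (x : UnitAddTorus (Fin N)) (i : Fin N) (h : x i = 0) : ev x i = 1 := by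
  unfold ev
  rw [h, fourier_eval_zero]

theorem neg_prod {m : ℕ} (y : UnitAddTorus (Fin m)) :
    ∏ j : Fin ((m + 1) + (m + 1)), (1 + C (ev (neg y) j) * X) =
      (1 - X ^ 2) * ∏ i, ((1 + X ^ 2) + C (yy y i) * X) := by
  rw [Fin.prod_univ_add, Fin.prod_univ_succ, Fin.prod_univ_succ]
  have e1 : ev (neg y) (Fin.castAdd (m + 1) 0) = 1 := by
    refine ev_zero _ _ ?_
    unfold neg
    rw [Fin.append_left, Fin.cons_zero]
  have e2 : ev (neg y) (Fin.natAdd (m + 1) 0) = -1 := by
    refine ev_half _ _ ?_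
    unfold neg
    rw [Fin.append_right, Fin.cons_zero]
  have e3 : ∀ i : Fin m, ev (neg y) (Fin.castAdd (m + 1) i.succ) = ev y i := by
    intro i
    unfold ev neg
    rw [Fin.append_left, Fin.cons_succ]
  have e4 : ∀ i : Fin m, ev (neg y) (Fin.natAdd (m + 1) i.succ) = (ev y i)⁻¹ := by
    intro i
    rw [← ev_neg]
    unfold ev neg
    rw [Fin.append_right, Fin.cons_succ]
  simp only [e1, e2, e3, e4]
  have e5 : ∏ i, ((1 + X ^ 2) + C (yy y i) * X) =
      (∏ i, (1 + C (ev y i) * X)) * ∏ i, (1 + C (ev y i)⁻¹ * X) := by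
    rw [← prod_mul_distrib]
    refine prod_congr rfl fun i _ => ?_
    have h3 : (C (ev y i) : ℂ[X]) * C (ev y i)⁻¹ = 1 := by
      rw [← C_mul, mul_inv_cancel₀ (ev_ne y i), C_1]
    rw [yy, C_add]
    linear_combination -X ^ 2 * h3
  rw [e5, C_neg, C_1]
  ring

/-- the coefficients on the component of determinant `-1` -/
noncomputable def cn (m k j : ℕ) : ℤ := cc m k j - (if 2 ≤ k then cc m (k - 2) j else 0)

theorem es_neg {m : ℕ} (y : UnitAddTorus (Fin m)) (k : ℕ) :
    es k (neg y) = ∑ j ∈ range (m + 1), (cn m k j : ℂ) * E j y := by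
  have h1 : es k (neg y) = ((1 - X ^ 2) * ∏ i, ((1 + X ^ 2) + C (yy y i) * X)).coeff k := by
    rw [← neg_prod, coeff_prod]
    rfl
  rw [h1, sub_mul, one_mul, coeff_sub, coeff_X_pow_mul', coeff_blocks]
  unfold cn
  split_ifs with h2
  · rw [coeff_blocks, ← sum_sub_distrib]
    refine sum_congr rfl fun j _ => ?_
    push_cast
    ring
  · simp

theorem cn_self (m k : ℕ) : cn m k k = 1 := by
  unfold cn
  rw [cc_self]
  split_ifs with h
  · rw [cc, if_neg (by omega), sub_zero]
  · rw [sub_zero]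

theorem cn_zero (m k j : ℕ) (h : k < j) : cn m k j = 0 := by
  unfold cn
  rw [cc, if_neg (by omega)]
  split_ifs with h2
  · rw [cc, if_neg (by omega), sub_zero]
  · rw [sub_zero]

theorem es_neg' {m : ℕ} (y : UnitAddTorus (Fin m)) {k : ℕ} (hk : k ≤ m) :
    es k (neg y) = E k y + ∑ j ∈ range k, (cn m k j : ℂ) * E j y := by
  rw [es_neg, ← sum_subset (range_mono (show k + 1 ≤ m + 1 by omega)), sum_range_succ, cn_self,
    Int.cast_one, one_mul, add_comm]
  intro j _ hj
  have : k < j := by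
    simpa [Nat.lt_succ_iff] using hj
  rw [cn_zero m k j this, Int.cast_zero, zero_mul]

/-- the middle exterior power vanishes on the component of determinant `-1` -/
theorem es_mid_neg {m : ℕ} (y : UnitAddTorus (Fin m)) : es (m + 1) (neg y) = 0 := by
  rw [es_neg]
  refine sum_eq_zero fun j hj => ?_
  have hj : j ≤ m := by
    have := mem_range.1 hj
    omega
  suffices h : cn m (m + 1) j = 0 by rw [h, Int.cast_zero, zero_mul]
  unfold cn
  rw [cc_eq m (m + 1) j (by omega)]
  rcases Nat.lt_or_ge j m with h | h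
  · rw [if_pos (show 2 ≤ m + 1 by omega), cc_eq m (m + 1 - 2) j (by omega)]
    by_cases h2 : 2 ∣ (m + 1 - j)
    · rw [if_pos h2, if_pos (by omega)]
      obtain ⟨a, ha⟩ := h2
      have e1 : (m + 1 - j) / 2 = a := by omega
      have e2 : (m + 1 - 2 - j) / 2 = a - 1 := by omega
      rw [e1, e2]
      have : (m - j).choose a = (m - j).choose (a - 1) := by
        have h3 : m - j - a = a - 1 := by omega
        rw [← Nat.choose_symm (show a ≤ m - j by omega), h3]
      rw [this, sub_self]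
    · rw [if_neg h2, if_neg (by omega), sub_self]
  · have : j = m := by omega
    subst this
    rw [if_neg (by omega)]
    split_ifs with h3
    · rw [cc, if_neg (by omega), sub_zero]
    · rw [sub_zero]

/-- the middle exterior power on the component of determinant `1` -/
theorem es_mid_pos (m : ℕ) : ∃ c : ℕ → ℤ, ∀ x : UnitAddTorus (Fin (m + 1)),
    es (m + 1) (pos x) = E (m + 1) x + 2 * ∑ j ∈ range (m + 1), (c j : ℂ) * E j x := by
  have h : ∀ j, ∃ c : ℤ, j < m + 1 → cc (m + 1) (m + 1) j = 2 * c := by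
    intro j
    by_cases hj : j < m + 1
    · rw [cc_eq _ _ _ hj.le]
      by_cases h2 : 2 ∣ (m + 1 - j)
      · obtain ⟨a, ha⟩ := h2
        have e1 : (m + 1 - j) / 2 = a := by omega
        rw [e1, if_pos ⟨a, ha⟩, ha]
        obtain ⟨b, hb⟩ := Nat.two_dvd_centralBinom_of_one_le (show 0 < a by omega)
        refine ⟨b, fun _ => ?_⟩
        rw [← Nat.centralBinom_eq_two_mul_choose, hb]
        push_cast
        rfl
      · exact ⟨0, fun _ => by rw [if_neg h2, mul_zero]⟩
    · exact ⟨0, fun h => absurd h hj⟩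
  choose c hc using h
  refine ⟨c, fun x => ?_⟩
  rw [es_pos, sum_range_succ, cc_self, Int.cast_one, one_mul, add_comm, mul_sum]
  congr 1
  refine sum_congr rfl fun j hj => ?_
  rw [hc j (mem_range.1 hj)]
  push_cast
  ring

theorem E_pos (m k : ℕ) (hk : k ≤ m + 1) :
    ∃ F ∈ RR m, ∀ x : UnitAddTorus (Fin (m + 1)), F (Sum.inl x) = E k x := by
  induction k using Nat.strong_induction_on with
  | _ k ih =>
    have h : ∀ j : ℕ, ∃ F ∈ RR m, j < k → ∀ x : UnitAddTorus (Fin (m + 1)),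
        F (Sum.inl x) = E j x := by
      intro j
      by_cases hj : j < k
      · obtain ⟨F, hF, h1⟩ := ih j hj (by omega)
        exact ⟨F, hF, fun _ => h1⟩
      · exact ⟨0, zero_mem _, fun h => absurd h hj⟩
    choose F hF h1 using h
    refine ⟨(fun s => es k (pt s)) - ∑ j ∈ range k, cc (m + 1) k j • F j, sub_mem (es_mem (by omega))
      (sum_mem fun j _ => zsmul_mem (hF j) _), fun x => ?_⟩
    have h2 := es_dbl x hk
    have h3 : es k (pt (Sum.inl x : TT m)) = es k (dbl x) := rfl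
    rw [Pi.sub_apply, h3, h2, Finset.sum_apply]
    simp only [Pi.smul_apply, zsmul_eq_mul]
    have h4 : ∑ j ∈ range k, (cc (m + 1) k j : ℂ) * F j (Sum.inl x) =
        ∑ j ∈ range k, (cc (m + 1) k j : ℂ) * E j x :=
      sum_congr rfl fun j hj => by rw [h1 j (mem_range.1 hj) x]
    rw [h4]
    ring

theorem E_neg (m k : ℕ) (hk : k ≤ m) :
    ∃ F ∈ RR m, ∀ x : UnitAddTorus (Fin m), F (Sum.inr x) = E k x := by
  induction k using Nat.strong_induction_on with
  | _ k ih =>
    have h : ∀ j : ℕ, ∃ F ∈ RR m, j < k → ∀ x : UnitAddTorus (Fin m),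
        F (Sum.inr x) = E j x := by
      intro j
      by_cases hj : j < k
      · obtain ⟨F, hF, h1⟩ := ih j hj (by omega)
        exact ⟨F, hF, fun _ => h1⟩
      · exact ⟨0, zero_mem _, fun h => absurd h hj⟩
    choose F hF h1 using h
    refine ⟨(fun s => es k (pt s)) - ∑ j ∈ range k, cn m k j • F j, sub_mem (es_mem (by omega))
      (sum_mem fun j _ => zsmul_mem (hF j) _), fun x => ?_⟩
    have h2 := es_neg' x hk
    have h3 : es k (pt (Sum.inr x : TT m)) = es k (neg x) := rfl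
    rw [Pi.sub_apply, h3, h2, Finset.sum_apply]
    simp only [Pi.smul_apply, zsmul_eq_mul]
    have h4 : ∑ j ∈ range k, (cn m k j : ℂ) * F j (Sum.inr x) =
        ∑ j ∈ range k, (cn m k j : ℂ) * E j x :=
      sum_congr rfl fun j hj => by rw [h1 j (mem_range.1 hj) x]
    rw [h4]
    ring

/-- the determinant -/
theorem det_mem (m : ℕ) : ∃ D ∈ RR m, (∀ x, D (Sum.inl x) = 1) ∧ ∀ y, D (Sum.inr y) = -1 := by
  refine ⟨fun s => es ((m + 1) + (m + 1)) (pt s), es_mem le_rfl, fun x => ?_, fun y => ?_⟩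
  · have h : es ((m + 1) + (m + 1)) (pos x) = 1 := by
      have h1 : es ((m + 1) + (m + 1)) (pos x) = ∏ j : Fin ((m + 1) + (m + 1)), ev (pos x) j := by
        have : powersetCard ((m + 1) + (m + 1)) (univ : Finset (Fin ((m + 1) + (m + 1)))) = {univ} := by
          have := powersetCard_self (univ : Finset (Fin ((m + 1) + (m + 1))))
          rwa [card_univ, Fintype.card_fin] at this
        unfold es
        rw [this, sum_singleton]
      rw [h1, Fin.prod_univ_add, ← prod_mul_distrib]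
      refine prod_eq_one fun i _ => ?_
      have e1 : ev (pos x) (Fin.castAdd (m + 1) i) = ev x i := by
        unfold ev pos
        rw [Fin.append_left]
      have e2 : ev (pos x) (Fin.natAdd (m + 1) i) = (ev x i)⁻¹ := by
        rw [← ev_neg]
        unfold ev pos
        rw [Fin.append_right]
      rw [e1, e2, mul_inv_cancel₀ (ev_ne x i)]
    exact h
  · have h : es ((m + 1) + (m + 1)) (neg y) = -1 := by
      have h1 : es ((m + 1) + (m + 1)) (neg y) = ∏ j : Fin ((m + 1) + (m + 1)), ev (neg y) j := by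
        have : powersetCard ((m + 1) + (m + 1)) (univ : Finset (Fin ((m + 1) + (m + 1)))) = {univ} := by
          have := powersetCard_self (univ : Finset (Fin ((m + 1) + (m + 1))))
          rwa [card_univ, Fintype.card_fin] at this
        unfold es
        rw [this, sum_singleton]
      rw [h1, Fin.prod_univ_add, Fin.prod_univ_succ, Fin.prod_univ_succ]
      have e1 : ev (neg y) (Fin.castAdd (m + 1) 0) = 1 := by
        refine ev_zero _ _ ?_
        unfold neg
        rw [Fin.append_left, Fin.cons_zero]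
      have e2 : ev (neg y) (Fin.natAdd (m + 1) 0) = -1 := by
        refine ev_half _ _ ?_
        unfold neg
        rw [Fin.append_right, Fin.cons_zero]
      have e3 : ∀ i : Fin m, ev (neg y) (Fin.castAdd (m + 1) i.succ) = ev y i := by
        intro i
        unfold ev neg
        rw [Fin.append_left, Fin.cons_succ]
      have e4 : ∀ i : Fin m, ev (neg y) (Fin.natAdd (m + 1) i.succ) = (ev y i)⁻¹ := by
        intro i
        rw [← ev_neg]
        unfold ev neg
        rw [Fin.append_right, Fin.cons_succ]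
      simp only [e1, e2, e3, e4]
      have e5 : (∏ i, ev y i) * ∏ i, (ev y i)⁻¹ = 1 := by
        rw [← prod_mul_distrib]
        exact prod_eq_one fun i _ => mul_inv_cancel₀ (ev_ne y i)
      linear_combination -e5
    exact h

/-- the product of the `y_i` on the component of determinant `1` -/
theorem top_mem (m : ℕ) : ∃ F ∈ RR m, (∀ x, F (Sum.inl x) = ∏ i, yy x i) ∧
    ∀ y, F (Sum.inr y) = 0 := by
  obtain ⟨D, hD, hD1, hD2⟩ := det_mem m
  obtain ⟨c, hc⟩ := es_mid_pos m
  have h : ∀ j : ℕ, ∃ F ∈ RR m, j < m + 1 → ∀ x : UnitAddTorus (Fin (m + 1)),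
      F (Sum.inl x) = E j x := by
    intro j
    by_cases hj : j < m + 1
    · obtain ⟨F, hF, h1⟩ := E_pos m j (by omega)
      exact ⟨F, hF, fun _ => h1⟩
    · exact ⟨0, zero_mem _, fun h => absurd h hj⟩
  choose F hF h1 using h
  refine ⟨(fun s => es (m + 1) (pt s)) - (1 + D) * ∑ j ∈ range (m + 1), c j • F j,
    sub_mem (es_mem (by omega)) (mul_mem (add_mem (one_mem _) hD)
      (sum_mem fun j _ => zsmul_mem (hF j) _)), fun x => ?_, fun y => ?_⟩
  · have h3 : es (m + 1) (pt (Sum.inl x : TT m)) = es (m + 1) (pos x) := rfl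
    have h4 : E (m + 1) x = ∏ i, yy x i := by
      have : powersetCard (m + 1) (univ : Finset (Fin (m + 1))) = {univ} := by
        have := powersetCard_self (univ : Finset (Fin (m + 1)))
        rwa [card_univ, Fintype.card_fin] at this
      unfold E
      rw [this, sum_singleton]
    rw [Pi.sub_apply, h3, hc, Pi.mul_apply, Pi.add_apply, Pi.one_apply, hD1, Finset.sum_apply, ← h4]
    simp only [Pi.smul_apply, zsmul_eq_mul]
    have h5 : ∑ j ∈ range (m + 1), (c j : ℂ) * F j (Sum.inl x) =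
        ∑ j ∈ range (m + 1), (c j : ℂ) * E j x :=
      sum_congr rfl fun j hj => by rw [h1 j (mem_range.1 hj) x]
    rw [h5]
    ring
  · have h3 : es (m + 1) (pt (Sum.inr y : TT m)) = es (m + 1) (neg y) := rfl
    rw [Pi.sub_apply, h3, es_mid_neg, Pi.mul_apply, Pi.add_apply, Pi.one_apply, hD2]
    ring

theorem exists_pn' (n : ℕ) : ∃ (U : ℤ[X]) (c : ℤ), ∀ z w : ℂ, z * w = 1 →
    aeval (z + w) (X * U + 2 * C c) = z ^ n + w ^ n := by
  induction n using Nat.twoStepInduction with
  | zero => exact ⟨0, 1, fun z w _ => by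
      simp only [mul_zero, zero_add, map_mul, map_ofNat, map_one, pow_zero]; norm_num⟩
  | one => exact ⟨1, 0, fun z w _ => by simp⟩
  | more n h1 h2 =>
    obtain ⟨U, c, hP⟩ := h1
    obtain ⟨V, d, hQ⟩ := h2
    refine ⟨(X * V + 2 * C d) - U, -c, fun z w h => ?_⟩
    have e : (X * ((X * V + 2 * C d) - U) + 2 * C (-c) : ℤ[X]) =
        X * (X * V + 2 * C d) - (X * U + 2 * C c) := by
      rw [C_neg]
      ring
    rw [e, map_sub, map_mul, aeval_X, hP z w h, hQ z w h]
    linear_combination (z ^ n + w ^ n) * h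

theorem exists_pz' (n : ℤ) : ∃ (U : ℤ[X]) (c : ℤ), ∀ z : ℂ, z ≠ 0 →
    aeval (z + z⁻¹) (X * U + 2 * C c) = z ^ n + z ^ (-n) := by
  obtain ⟨k, hk⟩ := n.eq_nat_or_neg
  obtain ⟨U, c, hP⟩ := exists_pn' k
  refine ⟨U, c, fun z hz => ?_⟩
  rw [hP z z⁻¹ (mul_inv_cancel₀ hz)]
  rcases hk with rfl | rfl
  · rw [zpow_neg, zpow_natCast, inv_pow]
  · rw [neg_neg, zpow_neg, zpow_natCast, inv_pow, add_comm]

/-- sums over the permutations are symmetric -/
theorem isSym {g : ℕ} (f : Fin g → ℤ[X]) : (∑ σ : Equiv.Perm (Fin g),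
    ∏ i, Polynomial.aeval (MvPolynomial.X (σ i) : MvPolynomial (Fin g) ℤ) (f i)).IsSymmetric := by
  intro τ
  rw [map_sum]
  refine Fintype.sum_equiv (Equiv.mulLeft τ) _ _ fun σ => ?_
  rw [map_prod]
  refine prod_congr rfl fun i _ => ?_
  rw [← Polynomial.aeval_algHom_apply, MvPolynomial.rename_X]
  rfl

/-- the values of the symmetric sums are the orbit sums -/
theorem sym_orb {g : ℕ} (μ : Fin g → ℤ) (P : Fin g → ℤ[X])
    (hP : ∀ i, ∀ z : ℂ, z ≠ 0 → aeval (z + z⁻¹) (P i) = z ^ μ i + z ^ (-μ i))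
    (x : UnitAddTorus (Fin g)) :
    MvPolynomial.aeval (yy x) (∑ σ : Equiv.Perm (Fin g),
      ∏ i, Polynomial.aeval (MvPolynomial.X (σ i) : MvPolynomial (Fin g) ℤ) (P i)) =
      orb (sympW g) μ x := by
  rw [orb_eq, map_sum]
  refine sum_congr rfl fun σ _ => ?_
  rw [map_prod]
  refine prod_congr rfl fun i _ => ?_
  rw [← Polynomial.aeval_algHom_apply, MvPolynomial.aeval_X, yy, hP i _ (ev_ne x _)]

theorem prod_mod {R ι : Type*} [CommRing R] (s : Finset ι) (a b : ι → R) :
    ∃ W : R, ∏ i ∈ s, (a i + 2 * b i) = ∏ i ∈ s, a i + 2 * W := by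
  classical
  induction s using Finset.induction_on with
  | empty => exact ⟨0, by simp⟩
  | insert i s hi ih =>
    obtain ⟨W, hW⟩ := ih
    refine ⟨a i * W + b i * (∏ i ∈ s, a i + 2 * W), ?_⟩
    rw [prod_insert hi, prod_insert hi, hW]
    ring

theorem t : StmAlg := by
  classical
  intro m
  obtain ⟨D, hD, hD1, hD2⟩ := det_mem m
  refine ⟨fun μ => ?_, fun μ => ?_⟩
  · choose U c hU using exists_pz'
    set P : Fin (m + 1) → ℤ[X] := fun i => X * U (μ i) + 2 * C (c (μ i)) with hPdef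
    have hP : ∀ i, ∀ z : ℂ, z ≠ 0 → aeval (z + z⁻¹) (P i) = z ^ μ i + z ^ (-μ i) :=
      fun i z hz => hU (μ i) z hz
    set Q := ∑ σ : Equiv.Perm (Fin (m + 1)),
      ∏ i, Polynomial.aeval (MvPolynomial.X (σ i) : MvPolynomial (Fin (m + 1)) ℤ) (P i) with hQ
    set A := ∑ σ : Equiv.Perm (Fin (m + 1)),
      ∏ i, Polynomial.aeval (MvPolynomial.X (σ i) : MvPolynomial (Fin (m + 1)) ℤ) (U (μ i)) with hA
    have hQs : Q.IsSymmetric := isSym P
    have hAs : A.IsSymmetric := isSym fun i => U (μ i)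
    have hW : ∀ σ : Equiv.Perm (Fin (m + 1)), ∃ W : MvPolynomial (Fin (m + 1)) ℤ,
        ∏ i, Polynomial.aeval (MvPolynomial.X (σ i) : MvPolynomial (Fin (m + 1)) ℤ) (P i) =
        (∏ i, MvPolynomial.X i) * (∏ i, Polynomial.aeval
          (MvPolynomial.X (σ i) : MvPolynomial (Fin (m + 1)) ℤ) (U (μ i))) + 2 * W := by
      intro σ
      obtain ⟨W, hW⟩ := prod_mod univ
        (fun i => (MvPolynomial.X (σ i) : MvPolynomial (Fin (m + 1)) ℤ) *
          Polynomial.aeval (MvPolynomial.X (σ i) : MvPolynomial (Fin (m + 1)) ℤ) (U (μ i)))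
        (fun i => Polynomial.aeval (MvPolynomial.X (σ i) : MvPolynomial (Fin (m + 1)) ℤ)
          (C (c (μ i))))
      refine ⟨W, ?_⟩
      rw [← Equiv.prod_comp σ (fun i => (MvPolynomial.X i : MvPolynomial (Fin (m + 1)) ℤ)),
        ← prod_mul_distrib, ← hW]
      refine prod_congr rfl fun i _ => ?_
      rw [hPdef]
      simp only [map_add, map_mul, aeval_X, map_ofNat]
    choose W hW using hW
    set B := ∑ σ : Equiv.Perm (Fin (m + 1)), W σ with hB
    have hQAB : Q = (∏ i, MvPolynomial.X i) * A + 2 * B := by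
      rw [hQ, hA, hB, mul_sum, mul_sum, ← sum_add_distrib]
      exact sum_congr rfl fun σ _ => hW σ
    have hXs : (∏ i, (MvPolynomial.X i : MvPolynomial (Fin (m + 1)) ℤ)).IsSymmetric := by
      intro τ
      rw [map_prod]
      simp only [MvPolynomial.rename_X]
      exact Equiv.prod_comp τ (fun i => (MvPolynomial.X i : MvPolynomial (Fin (m + 1)) ℤ))
    have hBs : B.IsSymmetric := by
      intro τ
      have h1 : (2 : MvPolynomial (Fin (m + 1)) ℤ) * MvPolynomial.rename τ B = 2 * B := by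
        have h2 : (2 : MvPolynomial (Fin (m + 1)) ℤ) * B = Q - (∏ i, MvPolynomial.X i) * A := by
          rw [hQAB]
          ring
        have h3 : MvPolynomial.rename τ ((2 : MvPolynomial (Fin (m + 1)) ℤ) * B) =
            2 * MvPolynomial.rename τ B := by
          rw [map_mul, map_ofNat]
        rw [← h3, h2, map_sub, map_mul, hQs τ, hAs τ, hXs τ]
      exact mul_left_cancel₀ (by norm_num) h1
    obtain ⟨F1, hF1, h1⟩ := sym_gen (RR m) Sum.inl (E_pos m) A hAs
    obtain ⟨F2, hF2, h2⟩ := sym_gen (RR m) Sum.inl (E_pos m) B hBs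
    obtain ⟨F3, hF3, h3, h3'⟩ := top_mem m
    obtain ⟨G, hG, hGF⟩ := mem_RR.1 (add_mem (mul_mem hF3 hF1)
      (mul_mem (add_mem (one_mem _) hD) hF2))
    refine ⟨G, hG, fun x => ?_, fun y => ?_⟩
    · rw [show G (pos x) = G (pt (Sum.inl x : TT m)) from rfl, ← hGF, ← sym_orb μ P hP x, ← hQ, hQAB]
      simp only [Pi.add_apply, Pi.mul_apply, Pi.one_apply, h1, h2, h3, hD1, map_add, map_mul,
        map_prod, MvPolynomial.aeval_X, map_ofNat]
      ring
    · rw [show G (neg y) = G (pt (Sum.inr y : TT m)) from rfl, ← hGF]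
      simp only [Pi.add_apply, Pi.mul_apply, Pi.one_apply, h3', hD2]
      ring
  · choose P hP using exists_pz
    obtain ⟨F, hF, h1⟩ := sym_gen (RR m) Sum.inr (E_neg m) _ (isSym fun i => P (μ i))
    obtain ⟨G, hG, hGF⟩ := mem_RR.1 (mul_mem (sub_mem (one_mem _) hD) hF)
    refine ⟨G, hG, fun x => ?_, fun y => ?_⟩
    · rw [show G (pos x) = G (pt (Sum.inl x : TT m)) from rfl, ← hGF]
      simp only [Pi.sub_apply, Pi.mul_apply, Pi.one_apply, hD1]
      ring
    · rw [show G (neg y) = G (pt (Sum.inr y : TT m)) from rfl, ← hGF]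
      simp only [Pi.sub_apply, Pi.mul_apply, Pi.one_apply, hD2, h1]
      rw [sym_orb μ _ (fun i z hz => hP (μ i) z hz) y]
      ring

end Pool.Agent.Y960.OG.Alg
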